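import Pool.Agent.Q59.QP.Fin
import Pool.Agent.Q59.DN.Sys
import Pool.Agent.Q59.FS.Short

/-!
# The order of growth of the number of the open characters
-/

namespace Pool.Agent.Q59.DL

open Finset Pool.Agent.H916R2 Pool.Agent.Q59.QP
open Pool.Agent.Q59.RL (B0 half_add_half Adm AdmSys)
open Pool.Agent.Q59.DN (adm_sub gen_of_B0 splitting down sys_down hodge_down cancel_multi)
open Pool.Agent.Q59.FS (nn pp ww om wo)

/-- the number of the open characters -/
noncomputable def ocnt (A : ∀ m : ℕ, Multiset (ZMod m) → Prop) (k m : ℕ) : ℕ :=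
  Nat.card {s : Fin (2 * k) → ZMod m //
    IsHodge m ((univ : Finset (Fin (2 * k))).val.map s) ∧
      ¬ A m ((univ : Finset (Fin (2 * k))).val.map s)}

/-- there is an open character with `2 * w` entries -/
def Op (A : ∀ m : ℕ, Multiset (ZMod m) → Prop) (m w : ℕ) : Prop :=
  ∃ t : Multiset (ZMod m), IsHodge m t ∧ Multiset.card t = 2 * w ∧ ¬ A m t

variable {A : ∀ m : ℕ, Multiset (ZMod m) → Prop}

section Const

variable {ι : Type*} [Fintype ι]

open Classical in
/-- the constant part in degree `m` -/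
noncomputable def C0 {m : ℕ} (D : Datum ι) (s : ι → ZMod m) : Multiset (ZMod m) :=
  (univ.filter fun i => D.k i = 0).val.map s

open Classical in
/-- the constant part in degree `m`, made even -/
noncomputable def C0' {m : ℕ} (D : Datum ι) (s : ι → ZMod m) : Multiset (ZMod m) :=
  if Even (Multiset.card (C0 D s)) then C0 D s else ((m / 2 : ℕ) : ZMod m) ::ₘ C0 D s

lemma card_C0 {m L : ℕ} [NeZero L] (D : Datum ι) (s : ι → ZMod m) :
    Multiset.card (C0 D s) = Multiset.card (D0 L D) := by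
  unfold C0 D0
  rw [Multiset.card_map, Multiset.card_map]

lemma map_C0 {m L N : ℕ} [NeZero m] [NeZero L] [NeZero N] (h : L * m = N) {D : Datum ι}
    (hτ : ∀ i, L • D.τ i = 0) {s : ι → ZMod m} (hx : D.Mem (tps s)) :
    (C0 D s).map (iota L : ZMod m → ZMod N) = (D0 L D).map (iota m : ZMod L → ZMod N) := by
  classical
  obtain ⟨a, ha⟩ := hx
  unfold C0 D0
  rw [Multiset.map_map, Multiset.map_map]
  refine Multiset.map_congr rfl fun i hi => ?_
  have hi' : D.k i = 0 := (mem_filter.mp hi).2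
  rw [Function.comp_apply, Function.comp_apply, iota_res (by rw [← h]; ring) (hτ i)]
  symm
  apply res_eq
  rw [tp_iota h]
  have h1 := ha i
  rw [hi', zero_smul, zero_add] at h1
  exact h1

lemma iota_half {κ m N : ℕ} (h : κ * m = N) (h2 : 2 ∣ m) :
    (iota κ ((m / 2 : ℕ) : ZMod m) : ZMod N) = ((N / 2 : ℕ) : ZMod N) := by
  rw [iota_natCast h]
  congr 1
  obtain ⟨d, hd⟩ := h2
  rw [← h, hd, Nat.mul_div_cancel_left d two_pos,
    show κ * (2 * d) = 2 * (κ * d) by ring, Nat.mul_div_cancel_left _ two_pos]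

/-- the constant part in the degrees `m` and `L` -/
lemma const_level (hA : AdmSys A) {m L : ℕ} [NeZero m] [NeZero L] {D : Datum ι} (hL2 : 2 ∣ L)
    (hτ : ∀ i, L • D.τ i = 0) {s : ι → ZMod m} (hx : D.Mem (tps s))
    (h2 : ¬ Even (Multiset.card (C0 D s)) → 2 ∣ m) :
    A m (C0' D s) ↔ A L (D0' L D) := by
  have hN : NeZero (L * m) := ⟨Nat.mul_ne_zero (NeZero.ne L) (NeZero.ne m)⟩
  have hc := card_C0 (L := L) D s
  rw [hA.level L m (L * m) (NeZero.pos _) rfl, hA.level m L (L * m) (NeZero.pos _) (mul_comm m L)]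
  have h1 := map_C0 (N := L * m) rfl hτ hx
  by_cases he : Even (Multiset.card (C0 D s))
  · have he' : Even (Multiset.card (D0 L D)) := hc ▸ he
    unfold C0' D0'
    rw [if_pos he, if_pos he']
    exact iff_of_eq (congrArg _ h1)
  · have he' : ¬ Even (Multiset.card (D0 L D)) := hc ▸ he
    unfold C0' D0'
    rw [if_neg he, if_neg he', Multiset.map_cons, Multiset.map_cons]
    have e1 := iota_half (κ := L) (m := m) (N := L * m) rfl (h2 he)
    have e2 := iota_half (κ := m) (m := L) (N := L * m) (mul_comm m L) hL2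
    exact iff_of_eq (congrArg _ (by rw [e1, e2]; exact congrArg _ h1))

/-- an odd constant part exists for even degrees only -/
lemma two_dvd {m L : ℕ} [NeZero m] [NeZero L] {D : Datum ι} (hL2 : 2 ∣ L)
    (hτ : ∀ i, L • D.τ i = 0) {s : ι → ZMod m} (hx : D.Mem (tps s)) (hh : IsHodge L (D0' L D))
    (he : ¬ Even (Multiset.card (C0 D s))) : 2 ∣ m := by
  have hN : NeZero (L * m) := ⟨Nat.mul_ne_zero (NeZero.ne L) (NeZero.ne m)⟩
  have hc := card_C0 (L := L) D s
  have he' : ¬ Even (Multiset.card (D0 L D)) := hc ▸ he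
  have h1 := map_C0 (N := L * m) rfl hτ hx
  have h2 := hh
  unfold D0' at h2
  rw [if_neg he'] at h2
  have h3 := h2.iota (k := m) (m := L * m) (mul_comm m L)
  rw [Multiset.map_cons, iota_half (mul_comm m L) hL2] at h3
  have h4 := h3.2.2.1
  rw [Multiset.sum_cons, ← h1] at h4
  have hd : L ∣ L * m := Dvd.intro m rfl
  have h5 := congrArg (ZMod.castHom hd (ZMod L)) h4
  rw [map_add, map_zero, map_natCast, map_multiset_sum, Multiset.map_map] at h5
  have h6 : ((C0 D s).map ((ZMod.castHom hd (ZMod L)) ∘ (iota L : ZMod m → ZMod (L * m)))).sum = 0 := by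
    apply Multiset.sum_eq_zero
    intro x hx
    obtain ⟨a, -, rfl⟩ := Multiset.mem_map.mp hx
    rw [Function.comp_apply]
    unfold iota
    rw [map_natCast]
    push_cast
    rw [ZMod.natCast_self, zero_mul]
  have h7 : (((L * m / 2 : ℕ)) : ZMod L) = 0 := by
    have h8 := h5
    rw [show (Multiset.map (⇑(ZMod.castHom hd (ZMod L)) ∘ (iota L : ZMod m → ZMod (L * m))) (C0 D s)).sum
      = 0 from h6, add_zero] at h8
    exact h8
  rw [ZMod.natCast_eq_zero_iff] at h7
  obtain ⟨d, hd'⟩ := hL2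
  have hd0 : 0 < d := by
    have := NeZero.pos L
    omega
  rw [hd', show 2 * d * m = 2 * (d * m) by ring, Nat.mul_div_cancel_left _ two_pos, mul_comm 2 d] at h7
  exact Nat.dvd_of_mul_dvd_mul_left hd0 h7

end Const

end Pool.Agent.Q59.DL
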