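import Pool.Agent.Q59.DL.Defect

/-!
# The defect law
-/

namespace Pool.Agent.Q59.DL

open Finset Pool.Agent.H916R2 Pool.Agent.Q59.QP
open Pool.Agent.Q59.RL (B0 half_add_half Adm AdmSys)
open Pool.Agent.Q59.DN (adm_sub gen_of_B0 splitting down sys_down hodge_down cancel_multi lev lev_pos)
open Pool.Agent.Q59.FS (nn pp ww om wo)

variable {A : ∀ m : ℕ, Multiset (ZMod m) → Prop}

/-- **Upper bound**, with a constant which depends on `k` only. -/
theorem upper (k : ℕ) : ∃ C : ℕ, 0 < C ∧ ∀ A : ∀ m : ℕ, Multiset (ZMod m) → Prop, AdmSys A →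
    ∀ m : ℕ, 0 < m → ∀ w : ℕ, (∀ v < w, ¬ Op A m v) →
      (w ≤ k → ocnt A k m ≤ C * m ^ (k - w)) ∧ (k < w → ocnt A k m = 0) := by
  classical
  obtain ⟨H, hH2, hchar⟩ := exists_WW k
  set W := WW k H with hW
  have hWfin : W.Finite := finite_WW k H
  set L : ℕ := H.factorial with hL
  have hL0 : 0 < L := H.factorial_pos
  have : NeZero L := ⟨hL0.ne'⟩
  have hL2 : 2 ∣ L := Nat.dvd_factorial two_pos hH2
  have hτ : ∀ D ∈ W, ∀ i, L • D.τ i = 0 := fun D hD i => (hD.2 i).2
  have hFm : ∀ D ∈ W, D.Formal := fun D hD => hD.1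
  have hev : Even (Fintype.card (Fin (2 * k))) := by
    rw [Fintype.card_fin]
    exact even_two_mul k
  have hcj : ∀ j : ℕ, ∃ C : ℕ, ∀ m : ℕ, 0 < m →
      ∀ P : (Fin (2 * k) → UnitAddCircle) → Prop, ∀ [DecidablePred P],
      (∀ x, P x → ∃ D ∈ W, (RR D).card ≤ j ∧ D.Mem x) →
      ((TT (Fin (2 * k)) m).filter P).card ≤ C * m ^ j := exists_card_le hWfin hL0 hτ
  choose Cj hCj using hcj
  refine ⟨∑ j ∈ range (k + 1), Cj j + 1, by omega, ?_⟩
  intro A hA m hm w hw
  have : NeZero m := ⟨hm.ne'⟩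
  set P : (Fin (2 * k) → ZMod m) → Prop := fun s =>
    IsHodge m ((univ : Finset (Fin (2 * k))).val.map s) ∧
      ¬ A m ((univ : Finset (Fin (2 * k))).val.map s) with hP
  set Q : (Fin (2 * k) → UnitAddCircle) → Prop := fun x => ∃ s, tps s = x ∧ P s with hQ
  have hPQ : ∀ s, P s ↔ Q (tps s) := by
    intro s
    constructor
    · exact fun h => ⟨s, rfl, h⟩
    · rintro ⟨s', h1, h2⟩
      have : s' = s := funext fun i => tp_inj (congrFun h1 i)
      exact this ▸ h2
  have hcount : ocnt A k m = ((TT (Fin (2 * k)) m).filter Q).card := card_eq_TT hPQ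
  -- the constant part is long
  have hlong : ∀ x, Q x → w ≤ k ∧ ∃ D ∈ W, (RR D).card ≤ k - w ∧ D.Mem x := by
    rintro x ⟨s, rfl, hs1, hs2⟩
    obtain ⟨⟨D, hD, hDx⟩, h0⟩ := (hchar m s).mp hs1
    have h1 : IsHodge L (D0' L D) :=
      (alg_iff_const hodgeSys hev hL2 (hFm D hD) (hτ D hD) hDx h0).mp hs1
    have h2 : ¬ Even (Multiset.card (C0 D s)) → 2 ∣ m := two_dvd hL2 (hτ D hD) hDx h1
    have h3 : IsHodge m (C0' D s) := (const_level hodgeSys hL2 (hτ D hD) hDx h2).mpr h1
    have h4 : ¬ A m (C0' D s) := fun h => hs2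
      ((alg_iff_const hA hev hL2 (hFm D hD) (hτ D hD) hDx h0).mpr
        ((const_level hA hL2 (hτ D hD) hDx h2).mp h))
    obtain ⟨v, hv⟩ := h3.2.1
    have h5 : w ≤ v := by
      by_contra hcon
      exact hw v (by omega) ⟨_, h3, by omega, h4⟩
    have h6 : Multiset.card (C0' D s) ≤ Multiset.card (C0 D s) + 1 := by
      unfold C0'
      split_ifs
      · omega
      · rw [Multiset.card_cons]
    have h7 : Multiset.card (C0 D s) = (univ.filter fun i => D.k i = 0).card := by
      unfold C0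
      rw [Multiset.card_map]
      rfl
    have h8 : (univ.filter fun i => D.k i = 0).card + (univ.filter fun i => D.k i ≠ 0).card =
        2 * k := by
      have := card_filter_add_card_filter_not (s := (univ : Finset (Fin (2 * k))))
        (p := fun i => D.k i = 0)
      rw [card_univ, Fintype.card_fin] at this
      exact this
    have h9 := two_mul_RR_le (hFm D hD)
    have hwk : w ≤ k := by omega
    exact ⟨hwk, D, hD, by omega, hDx⟩
  refine ⟨fun hwk => ?_, fun hkw => ?_⟩
  · rw [hcount]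
    refine (hCj (k - w) m hm Q fun x hx => (hlong x hx).2).trans (Nat.mul_le_mul_right _ ?_)
    have := single_le_sum (f := Cj) (fun j _ => Nat.zero_le _)
      (mem_range.mpr (show k - w < k + 1 by omega))
    omega
  · rw [hcount, card_eq_zero, filter_eq_empty_iff]
    intro x _ hx
    have := (hlong x hx).1
    omega

lemma exists_fun {α : Type*} (t : Multiset α) : ∀ n : ℕ, Multiset.card t = n →
    ∃ f : Fin n → α, (univ : Finset (Fin n)).val.map f = t := by
  rintro n rfl
  induction t using Quotient.inductionOn with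
  | h l =>
    refine ⟨l.get, ?_⟩
    exact (Fin.univ_val_map (n := l.length) l.get).trans (congrArg _ (List.ofFn_get l))

/-- **Lower bound**: unions with pairs. -/
theorem lower (hA : AdmSys A) {m : ℕ} (hm : 0 < m) {k w : ℕ} (hwk : w ≤ k) (h : Op A m w) :
    (m - 1) ^ (k - w) ≤ ocnt A k m := by
  classical
  have : NeZero m := ⟨hm.ne'⟩
  obtain ⟨t, ht1, ht2, ht3⟩ := h
  obtain ⟨f, hf⟩ := exists_fun t (2 * w) ht2
  have hcard : Fintype.card (Fin (2 * k)) =
      Fintype.card (Fin (2 * w) ⊕ (Fin (k - w) ⊕ Fin (k - w))) := by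
    simp only [Fintype.card_fin, Fintype.card_sum]
    omega
  set e := Fintype.equivOfCardEq hcard with he
  set g : (Fin (k - w) → {a : ZMod m // a ≠ 0}) → (Fin (2 * k) → ZMod m) := fun u =>
    Sum.elim f (Sum.elim (fun i => (u i).1) fun i => -(u i).1) ∘ e with hg
  have hmap : ∀ u, (univ : Finset (Fin (2 * k))).val.map (g u) =
      t + ((univ.val.map fun i => (u i).1) + (univ.val.map fun i => (u i).1).map Neg.neg) := by
    intro u
    have h1 : (univ : Finset (Fin (2 * k))).val.map (g u) =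
        (univ : Finset (Fin (2 * w) ⊕ (Fin (k - w) ⊕ Fin (k - w)))).val.map
          (Sum.elim f (Sum.elim (fun i => (u i).1) fun i => -(u i).1)) := by
      rw [hg]
      simp only
      rw [← Multiset.map_map, Multiset.map_univ_val_equiv e]
    rw [h1, ← univ_disjSum_univ, ← univ_disjSum_univ, val_disjSum, val_disjSum]
    unfold Multiset.disjSum
    rw [Multiset.map_add, Multiset.map_add, Multiset.map_add, Multiset.map_map, Multiset.map_map,
      Multiset.map_map, Multiset.map_map, Multiset.map_map, Multiset.map_map]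
    rw [← hf]
    rfl
  have hpairs : ∀ u : Fin (k - w) → {a : ZMod m // a ≠ 0}, ∀ B : ∀ m : ℕ, Multiset (ZMod m) → Prop,
      AdmSys B → B m ((univ.val.map fun i => (u i).1) +
        (univ.val.map fun i => (u i).1).map Neg.neg) := by
    intro u B hB
    refine alg_pairs hB hm _ fun h => ?_
    obtain ⟨i, -, hi⟩ := Multiset.mem_map.mp h
    exact (u i).2 hi
  have hmem : ∀ u, IsHodge m ((univ : Finset (Fin (2 * k))).val.map (g u)) ∧
      ¬ A m ((univ : Finset (Fin (2 * k))).val.map (g u)) := by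
    intro u
    rw [hmap u]
    refine ⟨(hodgeSys.adm m hm).join _ _ ht1 (hpairs u _ hodgeSys), fun h => ht3 ?_⟩
    exact adm_sub (hA.adm m hm) h (hpairs u A hA)
  have hinj : Function.Injective g := by
    intro u u' huu
    funext i
    have h1 := congrFun huu (e.symm (Sum.inr (Sum.inl i)))
    rw [hg] at h1
    simp only [Function.comp_apply, Equiv.apply_symm_apply, Sum.elim_inr, Sum.elim_inl] at h1
    exact Subtype.ext h1
  have h1 : Nat.card (Fin (k - w) → {a : ZMod m // a ≠ 0}) = (m - 1) ^ (k - w) := by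
    rw [Nat.card_eq_fintype_card, Fintype.card_fun, Fintype.card_fin, Fintype.card_subtype_compl,
      Fintype.card_subtype_eq, ZMod.card]
  rw [← h1]
  unfold ocnt
  exact Nat.card_le_card_of_injective (fun u => ⟨g u, hmem u⟩) fun u u' h =>
    hinj (congrArg Subtype.val h)

/-- open characters of a divisor of the degree -/
lemma op_mono (hA : AdmSys A) {g m w : ℕ} (hm : 0 < m) (hg : g ∣ m) (h : Op A g w) : Op A m w := by
  obtain ⟨c, hc⟩ := hg
  have hgc : c * g = m := by rw [hc, mul_comm]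
  have : NeZero m := ⟨hm.ne'⟩
  have : NeZero g := ⟨fun h0 => hm.ne' (by rw [hc, h0, zero_mul])⟩
  obtain ⟨t, h1, h2, h3⟩ := h
  refine ⟨t.map (iota c), h1.iota hgc, by rw [Multiset.card_map, h2], fun h => h3 ?_⟩
  exact (hA.level c g m hm hgc t).mpr h

/-- **Descent of the open characters of bounded size.** -/
theorem op_gcd (hA : AdmSys A) {m v N : ℕ} (hm : 2 ≤ m) (hv : 2 * v ≤ N) (h : Op A m v) :
    ∃ v' ≤ v, Op A (Nat.gcd m (lev N)) v' := by
  have : NeZero m := ⟨by omega⟩
  set g := Nat.gcd m (lev N) with hg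
  have hg0 : 0 < g := Nat.gcd_pos_of_pos_left _ (by omega)
  have : NeZero g := ⟨hg0.ne'⟩
  obtain ⟨t, ht1, ht2, ht3⟩ := h
  have hkill : ∀ a : ZMod m, (lev N : ZMod m) * a = 0 → (g : ZMod m) * a = 0 := by
    intro a ha
    have h1 : addOrderOf a ∣ lev N := by
      rw [addOrderOf_dvd_iff_nsmul_eq_zero, nsmul_eq_mul]
      exact ha
    have h2 : addOrderOf a ∣ m := by
      rw [addOrderOf_dvd_iff_nsmul_eq_zero, nsmul_eq_mul, ZMod.natCast_self, zero_mul]
    rw [← nsmul_eq_mul, ← addOrderOf_dvd_iff_nsmul_eq_zero]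
    exact Nat.dvd_gcd h2 h1
  obtain ⟨s0, s1, hs01, hk, hcase⟩ := splitting (N := N) hm ht1 (by omega)
  have hk0 : ∀ a ∈ s0, (g : ZMod m) * a = 0 := fun a ha => hkill a (hk a ha)
  have hAm := hA.adm m (NeZero.pos m)
  rcases hcase with ⟨h1, h2⟩ | ⟨h2m, h1, h2⟩
  · obtain ⟨v', hv'⟩ := h1.2.1
    have hle : Multiset.card s0 ≤ Multiset.card t := by
      rw [hs01, Multiset.card_add]
      omega
    refine ⟨v', by omega, s0.map (down m g), hodge_down hk0 h1, ?_, fun h => ht3 ?_⟩
    · rw [Multiset.card_map]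
      omega
    · rw [hs01]
      exact hAm.join _ _ ((sys_down hA hk0).mpr h) (gen_of_B0 hAm h2)
  · have hhh := half_add_half h2m
    have hneg : -((m / 2 : ℕ) : ZMod m) = ((m / 2 : ℕ) : ZMod m) := neg_eq_of_add_eq_zero_left hhh
    obtain ⟨v', hv'⟩ := h1.2.1
    have hN : 0 < N := by
      rcases Nat.eq_zero_or_pos N with h0 | h0
      · exfalso
        have h3 : t = 0 := Multiset.card_eq_zero.mp (by omega)
        rw [h3] at hs01
        have e1 : s0 = 0 := by
          apply Multiset.card_eq_zero.mp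
          have := congrArg Multiset.card hs01
          rw [Multiset.card_zero, Multiset.card_add] at this
          omega
        have := h1.2.1
        rw [e1] at this
        simp at this
      · exact h0
    have h2M : 2 ∣ lev N := by
      unfold lev
      have h3 : 2 ∈ (range (4 * N + 2)).filter Nat.Prime :=
        mem_filter.mpr ⟨mem_range.mpr (by omega), Nat.prime_two⟩
      refine dvd_trans ?_ (dvd_prod_of_mem _ h3)
      exact dvd_pow_self 2 (by omega)
    have hkh : (lev N : ZMod m) * ((m / 2 : ℕ) : ZMod m) = 0 := by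
      obtain ⟨c, hc⟩ := h2M
      rw [hc]
      push_cast
      have h5 : (2 : ZMod m) * ((m / 2 : ℕ) : ZMod m) = 0 := by rw [two_mul]; exact hhh
      rw [mul_comm (2 : ZMod m), mul_assoc, h5, mul_zero]
    have hk' : ∀ a ∈ ((m / 2 : ℕ) : ZMod m) ::ₘ s0, (g : ZMod m) * a = 0 := by
      intro a ha
      rcases Multiset.mem_cons.mp ha with rfl | ha
      · exact hkill _ hkh
      · exact hk0 a ha
    have h3 : Multiset.card t = Multiset.card s0 + Multiset.card s1 := by
      rw [hs01, Multiset.card_add]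
    have h4 := h1.2.1
    rw [Multiset.card_cons] at h4
    have h5 := ht1.2.1
    rw [h3] at h5
    have h6 : Multiset.card s1 ≠ 0 := by
      intro h7
      rw [h7, add_zero] at h5
      exact (Nat.not_even_iff_odd.mpr h5.add_one) h4
    rw [Multiset.card_cons] at hv'
    refine ⟨v', by omega, (((m / 2 : ℕ) : ZMod m) ::ₘ s0).map (down m g), hodge_down hk' h1, ?_,
      fun h => ht3 ?_⟩
    · rw [Multiset.card_map, Multiset.card_cons]
      omega
    · rw [hs01]
      have h8 := (sys_down hA hk').mpr h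
      have h9 := gen_of_B0 hAm h2
      apply hAm.cancel ((m / 2 : ℕ) : ZMod m)
      rw [hneg]
      have e1 : ((m / 2 : ℕ) : ZMod m) ::ₘ ((m / 2 : ℕ) : ZMod m) ::ₘ (s0 + s1) =
          ((m / 2 : ℕ) : ZMod m) ::ₘ s0 + ((m / 2 : ℕ) : ZMod m) ::ₘ s1 := by
        rw [Multiset.add_cons, Multiset.cons_add]
      rw [e1]
      exact hAm.join _ _ h8 h9

/-- **Open characters are long.** -/
theorem op_long (hA : AdmSys A) {m w : ℕ} (hm : 0 < m) (h : Op A m w) :
    2 ≤ w ∧ ∃ p q : ℕ, p.Prime ∧ q.Prime ∧ p ≠ q ∧ pp p * pp q ∣ m ∧ nn p * nn q ≤ 16 * w ∧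
      (Odd m → nn p * nn q ≤ 8 * w) := by
  have : NeZero m := ⟨hm.ne'⟩
  obtain ⟨t, ht1, ht2, ht3⟩ := h
  have hw2 : 2 ≤ w := by
    by_contra hcon
    exact ht3 (short_two hA m t hm ht1 (by omega))
  refine ⟨hw2, ?_⟩
  have hne : t ≠ 0 := by
    rintro rfl
    rw [Multiset.card_zero] at ht2
    omega
  have hAm := hA.adm m hm
  have hng : ¬ ∀ p q : ℕ, p.Prime → q.Prime → p ≠ q → 4 * ww p q t < nn p * nn q := fun hall =>
    ht3 (gen_of_B0 hAm (Pool.Agent.Q59.FS.short_generated ht1 hne hall))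
  push Not at hng
  obtain ⟨p, q, hp, hq, hpq, hle⟩ := hng
  have hnp : 0 < nn p * nn q := by
    have h1 : ∀ p : ℕ, p.Prime → 0 < nn p := by
      intro p hp
      unfold nn
      split_ifs
      · norm_num
      · have := hp.two_le
        omega
    exact Nat.mul_pos (h1 p hp) (h1 q hq)
  have hbd : ∀ c : ℤ, (∀ a ∈ t, om p q (addOrderOf a) ≤ c) → ww p q t ≤ 2 * w * c := by
    intro c hc
    unfold ww
    have h1 := Multiset.sum_le_card_nsmul (t.map fun a => om p q (addOrderOf a)) c (by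
      intro x hx
      obtain ⟨a, ha, rfl⟩ := Multiset.mem_map.mp hx
      exact hc a ha)
    rw [Multiset.card_map, ht2, nsmul_eq_mul] at h1
    push_cast at h1
    exact h1
  have hex : ∃ a ∈ t, pp p * pp q ∣ addOrderOf a := by
    by_contra hcon
    push Not at hcon
    have h1 := hbd 0 (fun a ha => by
      unfold om
      rw [if_neg (hcon a ha)])
    have h2 : (0 : ℤ) < nn p * nn q := by exact_mod_cast hnp
    linarith
  obtain ⟨a, -, ha⟩ := hex
  have hom2 : ∀ n, om p q n ≤ 2 := by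
    intro n
    unfold om
    split_ifs
    · exact Pool.Agent.Q59.FS.wo_le n
    · norm_num
  refine ⟨p, q, hp, hq, hpq, ?_, ?_, ?_⟩
  · refine ha.trans ?_
    rw [addOrderOf_dvd_iff_nsmul_eq_zero, nsmul_eq_mul, ZMod.natCast_self, zero_mul]
  · have h1 := hbd 2 (fun a _ => hom2 _)
    have h2 : ((nn p * nn q : ℕ) : ℤ) ≤ 16 * w := by push_cast; linarith
    exact_mod_cast h2
  · intro hodd
    have h1 := hbd 1 (fun a _ => by
      unfold om
      split_ifs
      · unfold wo
        have h3 : addOrderOf a ∣ m := by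
          rw [addOrderOf_dvd_iff_nsmul_eq_zero, nsmul_eq_mul, ZMod.natCast_self, zero_mul]
        have h4 : Odd (addOrderOf a) := hodd.of_dvd_nat h3
        rw [if_neg (by
          intro h5
          obtain ⟨c, hc⟩ := h4
          omega)]
      · norm_num)
    have h2 : ((nn p * nn q : ℕ) : ℤ) ≤ 8 * w := by push_cast; linarith
    exact_mod_cast h2

/-- **The defect law.** -/
theorem defect (k : ℕ) : ∃ C : ℕ, 0 < C ∧ ∀ A : ∀ m : ℕ, Multiset (ZMod m) → Prop, AdmSys A →
    ∀ m : ℕ, 2 ≤ m →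
      ((∀ v ≤ k, ¬ Op A (Nat.gcd m (lev (2 * k))) v) → ocnt A k m = 0) ∧
      ∀ w ≤ k, Op A (Nat.gcd m (lev (2 * k))) w →
        (∀ v < w, ¬ Op A (Nat.gcd m (lev (2 * k))) v) →
          2 ≤ w ∧ (m - 1) ^ (k - w) ≤ ocnt A k m ∧ ocnt A k m ≤ C * m ^ (k - w) ∧
          ∃ p q : ℕ, p.Prime ∧ q.Prime ∧ p ≠ q ∧ pp p * pp q ∣ m ∧ nn p * nn q ≤ 16 * w ∧
            (Odd m → nn p * nn q ≤ 8 * w) := by
  obtain ⟨C, hC0, hC⟩ := upper k
  refine ⟨C, hC0, fun A hA m hm => ⟨fun hno => ?_, fun w hwk hw hmin => ?_⟩⟩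
  · refine (hC A hA m (by omega) (k + 1) fun v hv hop => ?_).2 (by omega)
    obtain ⟨v', hv', h⟩ := op_gcd (N := 2 * k) hA hm (by omega) hop
    exact hno v' (by omega) h
  · have hm0 : 0 < m := by omega
    have hwm := op_mono hA hm0 (Nat.gcd_dvd_left m (lev (2 * k))) hw
    obtain ⟨h1, h2⟩ := op_long hA hm0 hwm
    refine ⟨h1, lower hA hm0 hwk hwm, (hC A hA m hm0 w fun v hv hop => ?_).1 hwk, h2⟩
    obtain ⟨v', hv', h⟩ := op_gcd (N := 2 * k) hA hm (by omega) hop
    exact hmin v' (by omega) h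

end Pool.Agent.Q59.DL
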